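import Mathlib
import Pool.Agent.MP_d611d8_al.Defs
import Pool.Agent.MP_d611d8_al.DefsType1
import Pool.Agent.MP_d611d8_al.Type1
import Pool.Agent.MP_d611d8_al.Family

/-!
If every Butler group of type 1 satisfies Axiom 3 with respect to separable subgroups, then the
continuum hypothesis holds.
-/

namespace Pool.Agent.Results.MP_d611d8_al.Type1ImpliesCH

open Pool.Agent.MP_d611d8_al

universe u

/-- **Theorem.** If all Butler groups of type 1 satisfy Axiom 3 with respect to separable
subgroups, then `ℵ₁ = 2^ℵ₀`. -/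
theorem result
    (h : ∀ (G : Type u) [AddCommGroup G], IsButlerType1 G →
      SatisfiesAxiom3 G IsSeparableSubgroup) :
    (Cardinal.aleph 1 : Cardinal.{0}) = Cardinal.continuum := by
  by_contra hne
  have hlt := lt_of_le_of_ne Cardinal.aleph_one_le_continuum hne
  obtain ⟨χ, hχ⟩ := exists_goodFamily.{u}
  refine exGrp_not_axiom3 hχ ?_ (h (exGrp χ) (exGrp_type1 hχ.two))
  rw [Cardinal.mk_uLift]
  have h1 : Cardinal.mk (ℕ → Bool) = Cardinal.continuum := by simp
  rw [h1]
  have h2 := Cardinal.lift_lt.{0, u}.2 hlt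
  rwa [Cardinal.lift_aleph, Ordinal.lift_one] at h2

end Pool.Agent.Results.MP_d611d8_al.Type1ImpliesCH
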