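import Mathlib
import Pool.Agent.MP_d611d8_al.Defs
import Pool.Agent.MP_d611d8_al.FromType2
import Pool.Agent.MP_d611d8_al.Family

/-!
Every Butler group of type 2 satisfies Axiom 3 with respect to separable subgroups if and only if
the continuum hypothesis holds.
-/

namespace Pool.Agent.Results.MP_d611d8_al.Type2IffCH

open Pool.Agent.MP_d611d8_al

universe u

/-- **Theorem.** All Butler groups of type 2 satisfy Axiom 3 with respect to separable subgroups
if and only if `ℵ₁ = 2^ℵ₀`. -/
theorem result :
    (∀ (G : Type u) [AddCommGroup G], IsButlerType2 G →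
      SatisfiesAxiom3 G IsSeparableSubgroup) ↔
    (Cardinal.aleph 1 : Cardinal.{0}) = Cardinal.continuum := by
  constructor
  · intro h
    by_contra hne
    obtain ⟨G, _, h2, h3⟩ := exists_type2_not_axiom3.{u}
      (lt_of_le_of_ne Cardinal.aleph_one_le_continuum hne)
    exact h3 (h G h2)
  · intro hCH G _ hG
    exact axiom3_of_type2 hCH hG

end Pool.Agent.Results.MP_d611d8_al.Type2IffCH
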